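import Pool.Agent.helper56.CT.SpecB

/-!
# Project cd (MP_45d809_mp): module E4, tree pairs of `G - v` in terms of darts
-/

namespace CT
open Finset

theorem E4_LT (hA3a : A3a_stmt) (hA3c : A3c_stmt) {E N : Type} [Fintype E] [Fintype N]
    [DecidableEq E] [DecidableEq N] (inc : E → N → ZMod 2) (hinc : TwoEnds inc) (T : Finset E)
    (n0 : N) :
    LT inc T ↔ T.card + 1 = Fintype.card N ∧
      ∀ φ : N → ZMod 2, (∀ a ∈ T, ∑ n, inc a n * φ n = 0) → ∀ m n, φ m = φ n := by
  constructor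
  · intro h
    exact ⟨(hA3c E N inc T n0 n0).1 (((hA3a E N inc (fun _ => n0) T 0 hinc).2.2 n0).mp h), h.2⟩
  · rintro ⟨hc, hφ⟩
    refine ⟨?_, hφ⟩
    intro y hy hk
    let Φ : (N → ZMod 2) → ZMod 2 × (T → ZMod 2) := fun φ => (φ n0, fun a => ∑ n, inc a n * φ n)
    have hinj : Function.Injective Φ := by
      intro φ ψ h
      have h1 : φ n0 = ψ n0 := congrArg Prod.fst h
      have h2 : ∀ a ∈ T, ∑ n, inc a n * (φ - ψ) n = 0 := by
        intro a ha
        have h3 := congrFun (congrArg Prod.snd h) ⟨a, ha⟩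
        have h4 : ∑ n, inc a n * φ n = ∑ n, inc a n * ψ n := h3
        simp only [Pi.sub_apply, mul_sub, Finset.sum_sub_distrib, h4, sub_self]
      funext m
      have h5 := hφ (φ - ψ) h2 m n0
      simp only [Pi.sub_apply, h1, sub_self] at h5
      exact sub_eq_zero.mp h5
    have hbij : Function.Bijective Φ := by
      rw [Fintype.bijective_iff_injective_and_card]
      refine ⟨hinj, ?_⟩
      simp [Fintype.card_prod, ZMod.card, ← hc, pow_succ']
    funext b
    by_cases hb : b ∈ T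
    · obtain ⟨φ, hφ'⟩ := hbij.2 (0, fun a => if a.1 = b then 1 else 0)
      have h1 : ∀ a ∈ T, ∑ n, inc a n * φ n = if a = b then 1 else 0 := by
        intro a ha
        exact congrFun (congrArg Prod.snd hφ') ⟨a, ha⟩
      have h2 : ∑ a, y a * ∑ n, inc a n * φ n = y b := by
        rw [Finset.sum_eq_single b]
        · rw [h1 b hb, if_pos rfl, mul_one]
        · intro a _ hab
          by_cases haT : a ∈ T
          · rw [h1 a haT, if_neg hab, mul_zero]
          · rw [hy a haT, zero_mul]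
        · intro h
          exact absurd (mem_univ b) h
      have h3 : ∑ a, y a * ∑ n, inc a n * φ n = 0 := by
        have h4 : ∑ a, y a * ∑ n, inc a n * φ n = ∑ n, φ n * ∑ a, inc a n * y a := by
          simp only [Finset.mul_sum]
          rw [Finset.sum_comm]
          refine Finset.sum_congr rfl fun n _ => Finset.sum_congr rfl fun a _ => ?_
          ring
        rw [h4]
        refine Finset.sum_eq_zero fun n _ => ?_
        rw [hk n, mul_zero]
      rw [← h2, h3]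
      rfl
    · exact hy b hb

section
variable {V : Type} [Fintype V] [DecidableEq V] (G : SimpleGraph V) (v : V)
  (e : V × Fin 4 → V × Fin 4)

/-- the edge of a dart -/
def E4_P (d : V × Fin 4) (a : (G.induce ({v}ᶜ : Set V)).edgeSet) : Prop :=
  Sym2.map Subtype.val (a : Sym2 ({v}ᶜ : Set V)) = s(d.1, (e d).1)

variable {G v e}

theorem E4_mem_DU {d : V × Fin 4} : d ∈ DU (univ.erase v) e ↔ d.1 ≠ v ∧ (e d).1 ≠ v := by
  simp [DU, dts]

theorem E4_ex (hG : ∀ u i, G.Adj u (e (u, i)).1) {d : V × Fin 4}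
    (hd : d ∈ DU (univ.erase v) e) : ∃ a, E4_P G v e d a := by
  rw [E4_mem_DU] at hd
  refine ⟨⟨s(⟨d.1, by simpa using hd.1⟩, ⟨(e d).1, by simpa using hd.2⟩), ?_⟩, ?_⟩
  · rw [SimpleGraph.mem_edgeSet]
    exact hG d.1 d.2
  · simp [E4_P]

theorem E4_uniq {d : V × Fin 4} {a b : (G.induce ({v}ᶜ : Set V)).edgeSet}
    (ha : E4_P G v e d a) (hb : E4_P G v e d b) : a = b :=
  Subtype.ext (Sym2.map.injective Subtype.val_injective (ha.trans hb.symm))

theorem E4_dom {d : V × Fin 4} {a : (G.induce ({v}ᶜ : Set V)).edgeSet}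
    (ha : E4_P G v e d a) : d ∈ DU (univ.erase v) e := by
  rw [E4_mem_DU]
  constructor
  · have h : d.1 ∈ Sym2.map Subtype.val (a : Sym2 ({v}ᶜ : Set V)) := by
      rw [ha]
      exact Sym2.mem_mk_left _ _
    obtain ⟨x, _, hx⟩ := Sym2.mem_map.mp h
    rw [← hx]
    exact fun h => x.2 h
  · have h : (e d).1 ∈ Sym2.map Subtype.val (a : Sym2 ({v}ᶜ : Set V)) := by
      rw [ha]
      exact Sym2.mem_mk_right _ _
    obtain ⟨x, _, hx⟩ := Sym2.mem_map.mp h
    rw [← hx]
    exact fun h => x.2 h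

theorem E4_flip (he : ∀ d, e (e d) = d) {d : V × Fin 4}
    {a : (G.induce ({v}ᶜ : Set V)).edgeSet} (ha : E4_P G v e d a) : E4_P G v e (e d) a := by
  unfold E4_P at ha ⊢
  rw [ha, he d, Sym2.eq_swap]

theorem E4_surj (hs : ∀ u w, G.Adj u w → ∃ i, (e (u, i)).1 = w)
    (a : (G.induce ({v}ᶜ : Set V)).edgeSet) : ∃ d, E4_P G v e d a := by
  obtain ⟨a, ha⟩ := a
  induction a using Sym2.ind with
  | _ p q =>
    rw [SimpleGraph.mem_edgeSet] at ha
    have h1 : G.Adj p.1 q.1 := ha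
    obtain ⟨i, hi⟩ := hs _ _ h1
    refine ⟨(p.1, i), ?_⟩
    show Sym2.map Subtype.val s(p, q) = s(p.1, (e (p.1, i)).1)
    rw [hi]
    rfl

theorem E4_two (he : ∀ d, e (e d) = d) (hi : ∀ u i j, (e (u, i)).1 = (e (u, j)).1 → i = j)
    {d d' : V × Fin 4} {a : (G.induce ({v}ᶜ : Set V)).edgeSet} (ha : E4_P G v e d a)
    (ha' : E4_P G v e d' a) : d' = d ∨ d' = e d := by
  have hi' : ∀ x y : V × Fin 4, x.1 = y.1 → (e x).1 = (e y).1 → x = y := by
    rintro ⟨u, i⟩ ⟨w, j⟩ h1 h2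
    have h1' : u = w := h1
    subst h1'
    rw [hi u i j h2]
  have h : s(d'.1, (e d').1) = s(d.1, (e d).1) := ha'.symm.trans ha
  rw [Sym2.eq_iff] at h
  rcases h with ⟨h1, h2⟩ | ⟨h1, h2⟩
  · exact Or.inl (hi' _ _ h1 h2)
  · refine Or.inr (hi' _ _ h1 ?_)
    rw [he d]
    exact h2

open Classical in
theorem E4_fib (he : ∀ d, e (e d) = d) (hne : ∀ d, e d ≠ d)
    (hs : ∀ u w, G.Adj u w → ∃ i, (e (u, i)).1 = w)
    (hi : ∀ u i j, (e (u, i)).1 = (e (u, j)).1 → i = j)
    (a : (G.induce ({v}ᶜ : Set V)).edgeSet) :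
    ((univ : Finset (V × Fin 4)).filter fun d => E4_P G v e d a).card = 2 := by
  obtain ⟨d, hd⟩ := E4_surj hs a
  have h : ((univ : Finset (V × Fin 4)).filter fun d => E4_P G v e d a) = {d, e d} := by
    ext d'
    rw [mem_filter, mem_insert, mem_singleton]
    constructor
    · rintro ⟨_, h'⟩
      exact E4_two he hi hd h'
    · rintro (rfl | rfl)
      · exact ⟨mem_univ _, hd⟩
      · exact ⟨mem_univ _, E4_flip he hd⟩
  rw [h, card_pair (hne d).symm]

variable (G v e)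

open Classical in
/-- the darts of a set of edges -/
noncomputable def E4_F (T : Finset (G.induce ({v}ᶜ : Set V)).edgeSet) : Finset (V × Fin 4) :=
  T.biUnion fun a => (univ : Finset (V × Fin 4)).filter fun d => E4_P G v e d a

variable {G v e}

theorem E4_mem_F {T : Finset (G.induce ({v}ᶜ : Set V)).edgeSet} {d : V × Fin 4} :
    d ∈ E4_F G v e T ↔ ∃ a ∈ T, E4_P G v e d a := by
  classical
  unfold E4_F
  simp only [mem_biUnion, mem_filter, mem_univ, true_and]

theorem E4_card_F (he : ∀ d, e (e d) = d) (hne : ∀ d, e d ≠ d)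
    (hs : ∀ u w, G.Adj u w → ∃ i, (e (u, i)).1 = w)
    (hi : ∀ u i j, (e (u, i)).1 = (e (u, j)).1 → i = j)
    (T : Finset (G.induce ({v}ᶜ : Set V)).edgeSet) : (E4_F G v e T).card = 2 * T.card := by
  classical
  unfold E4_F
  rw [card_biUnion]
  · rw [Finset.sum_congr rfl fun a _ => E4_fib he hne hs hi a, Finset.sum_const, smul_eq_mul,
      mul_comm]
  · intro a _ b _ hab
    rw [Function.onFun, Finset.disjoint_left]
    intro d hd hd'
    exact hab (E4_uniq (mem_filter.mp hd).2 (mem_filter.mp hd').2)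

theorem E4_twoEnds {N : Type} [DecidableEq N] [Fintype N] (H : SimpleGraph N)
    [Fintype H.edgeSet] [DecidableEq H.edgeSet] : TwoEnds (incH H) := by
  rintro ⟨a, ha⟩
  induction a using Sym2.ind with
  | _ p q =>
    rw [SimpleGraph.mem_edgeSet] at ha
    refine ⟨p, q, ha.ne, fun k => ?_⟩
    unfold incH
    simp only [Sym2.mem_iff]

theorem E4_sum {N : Type} [DecidableEq N] [Fintype N] (H : SimpleGraph N) (p q : N)
    (h : s(p, q) ∈ H.edgeSet) (φ : N → ZMod 2) :
    ∑ n, incH H ⟨s(p, q), h⟩ n * φ n = φ p + φ q := by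
  have hne : p ≠ q := ((SimpleGraph.mem_edgeSet H).mp h).ne
  have h1 : ∀ n, incH H ⟨s(p, q), h⟩ n * φ n =
      (if n = p then φ n else 0) + (if n = q then φ n else 0) := by
    intro n
    unfold incH
    simp only [Sym2.mem_iff]
    by_cases h1 : n = p
    · subst h1
      rw [if_pos (Or.inl rfl), if_pos rfl, if_neg hne, one_mul, add_zero]
    · by_cases h2 : n = q
      · subst h2
        rw [if_pos (Or.inr rfl), if_neg h1, if_pos rfl, one_mul, zero_add]
      · rw [if_neg (by tauto), if_neg h1, if_neg h2, zero_mul, add_zero]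
  rw [Finset.sum_congr rfl fun n _ => h1 n, Finset.sum_add_distrib, Finset.sum_ite_eq',
    Finset.sum_ite_eq', if_pos (mem_univ _), if_pos (mem_univ _)]

theorem E4_add {a b : ZMod 2} : a + b = 0 ↔ a = b := by
  revert a b
  decide

theorem E4_conn [Fintype ({v}ᶜ : Set V)] [DecidableEq ({v}ᶜ : Set V)]
    (hG : ∀ u i, G.Adj u (e (u, i)).1)
    (hs : ∀ u w, G.Adj u w → ∃ i, (e (u, i)).1 = w)
    (T : Finset (G.induce ({v}ᶜ : Set V)).edgeSet) :
    (∀ φ : ({v}ᶜ : Set V) → ZMod 2,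
      (∀ a ∈ T, ∑ n, incH (G.induce ({v}ᶜ : Set V)) a n * φ n = 0) → ∀ m n, φ m = φ n) ↔
    Conn (univ.erase v) e (E4_F G v e T) := by
  classical
  constructor
  · intro h φ hφ u hu w hw
    have hu' : u ∈ ({v}ᶜ : Set V) := by simpa using hu
    have hw' : w ∈ ({v}ᶜ : Set V) := by simpa using hw
    have key := h (fun n => if φ n.1 then 1 else 0) ?_ ⟨u, hu'⟩ ⟨w, hw'⟩
    · have key' : (if φ u then (1 : ZMod 2) else 0) = if φ w then 1 else 0 := key
      cases h1 : φ u <;> cases h2 : φ w <;> simp_all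
    · rintro ⟨a, ha⟩ haT
      induction a using Sym2.ind with
      | _ p q =>
        rw [E4_sum, E4_add]
        obtain ⟨d, hd⟩ := E4_surj (v := v) hs ⟨s(p, q), ha⟩
        have h1 := hφ d (E4_mem_F.mpr ⟨_, haT, hd⟩)
        have h2 : s(p.1, q.1) = s(d.1, (e d).1) := hd
        rw [Sym2.eq_iff] at h2
        rcases h2 with ⟨h3, h4⟩ | ⟨h3, h4⟩
        · rw [h3, h4, h1]
        · rw [h3, h4, h1]
  · intro h φ hφ m n
    have key := h (fun u => if hu : u ∈ ({v}ᶜ : Set V) then decide (φ ⟨u, hu⟩ = 1) else false) ?_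
      m.1 (mem_erase.mpr ⟨fun h => m.2 h, mem_univ _⟩) n.1
      (mem_erase.mpr ⟨fun h => n.2 h, mem_univ _⟩)
    · simp only [dif_pos m.2, dif_pos n.2, Subtype.coe_eta, decide_eq_decide] at key
      have h2 : ∀ a b : ZMod 2, (a = 1 ↔ b = 1) → a = b := by decide
      exact h2 _ _ key
    · intro d hd
      obtain ⟨a, haT, hda⟩ := E4_mem_F.mp hd
      have hD := E4_mem_DU.mp (E4_dom hda)
      have hd1 : d.1 ∈ ({v}ᶜ : Set V) := by simpa using hD.1
      have hd2 : (e d).1 ∈ ({v}ᶜ : Set V) := by simpa using hD.2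
      simp only [dif_pos hd1, dif_pos hd2, decide_eq_decide]
      have h1 := hφ a haT
      have ha' : a = ⟨s(⟨d.1, hd1⟩, ⟨(e d).1, hd2⟩), by
          rw [SimpleGraph.mem_edgeSet]
          exact hG d.1 d.2⟩ := by
        apply Subtype.ext
        apply Sym2.map.injective Subtype.val_injective
        exact hda
      rw [ha', E4_sum, E4_add] at h1
      rw [h1]

theorem E4_Tr (hA3a : A3a_stmt) (hA3c : A3c_stmt) [Fintype ({v}ᶜ : Set V)]
    [DecidableEq ({v}ᶜ : Set V)] [Fintype (G.induce ({v}ᶜ : Set V)).edgeSet]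
    [DecidableEq (G.induce ({v}ᶜ : Set V)).edgeSet] (hV : 2 ≤ Fintype.card V)
    (he : ∀ d, e (e d) = d) (hne : ∀ d, e d ≠ d)
    (hG : ∀ u i, G.Adj u (e (u, i)).1)
    (hs : ∀ u w, G.Adj u w → ∃ i, (e (u, i)).1 = w)
    (hi : ∀ u i j, (e (u, i)).1 = (e (u, j)).1 → i = j)
    (T : Finset (G.induce ({v}ᶜ : Set V)).edgeSet) :
    LT (incH (G.induce ({v}ᶜ : Set V))) T ↔ Tr (univ.erase v) e (E4_F G v e T) := by
  obtain ⟨w, hw⟩ : ∃ w : V, w ≠ v := by
    have : Nontrivial V := Fintype.one_lt_card_iff_nontrivial.mp (by omega)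
    exact exists_ne v
  have hcard : Fintype.card ({v}ᶜ : Set V) + 1 = Fintype.card V := by
    have h1 : Fintype.card ({v}ᶜ : Set V) = Fintype.card V - 1 := by
      rw [Fintype.card_compl_set]
      simp
    omega
  have hS : (univ.erase v : Finset V).card + 1 = Fintype.card V := by
    rw [card_erase_of_mem (mem_univ v), card_univ]
    omega
  rw [E4_LT hA3a hA3c (incH (G.induce ({v}ᶜ : Set V))) (E4_twoEnds _) T
    ⟨w, by simpa using hw⟩, E4_conn hG hs T]
  unfold Tr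
  rw [E4_card_F he hne hs hi T]
  constructor
  · rintro ⟨h1, h2⟩
    exact ⟨by omega, h2⟩
  · rintro ⟨h1, h2⟩
    exact ⟨by omega, h2⟩

theorem E4_compl [Fintype (G.induce ({v}ᶜ : Set V)).edgeSet]
    [DecidableEq (G.induce ({v}ᶜ : Set V)).edgeSet] (hG : ∀ u i, G.Adj u (e (u, i)).1)
    (T : Finset (G.induce ({v}ᶜ : Set V)).edgeSet) :
    E4_F G v e Tᶜ = DU (univ.erase v) e \ E4_F G v e T := by
  ext d
  rw [mem_sdiff, E4_mem_F, E4_mem_F]
  constructor
  · rintro ⟨a, ha, hd⟩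
    refine ⟨E4_dom hd, ?_⟩
    rintro ⟨b, hb, hd'⟩
    rw [E4_uniq hd hd'] at ha
    exact (mem_compl.mp ha) hb
  · rintro ⟨hd, hno⟩
    obtain ⟨a, ha⟩ := E4_ex hG hd
    exact ⟨a, mem_compl.mpr fun haT => hno ⟨a, haT, ha⟩, ha⟩

end

theorem E4_mf {α : Type} {p : α → Prop} {inst : DecidablePred p} {s : Finset α} {a : α} :
    a ∈ @Finset.filter α p inst s ↔ a ∈ s ∧ p a := Finset.mem_filter

theorem E4 (hA3a : A3a_stmt) (hA3c : A3c_stmt) : E4_stmt := by
  classical
  intro V _ _ G _ v e hV hact hG hs hi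
  have he : ∀ d, e (e d) = d := hact.1
  have hne : ∀ d, e d ≠ d := fun d => (hact.2 d).mpr (by simp [dts])
  unfold TP
  refine Finset.card_bij' (fun T _ => E4_F G v e T)
    (fun T' _ => (univ : Finset (G.induce ({v}ᶜ : Set V)).edgeSet).filter
      fun a => ∃ d ∈ T', E4_P G v e d a) ?_ ?_ ?_ ?_
  · intro T hT
    obtain ⟨_, h1, h2⟩ := E4_mf.mp hT
    refine E4_mf.mpr ⟨mem_powerset.mpr ?_, ?_, ?_, ?_⟩
    · intro d hd
      obtain ⟨a, _, ha⟩ := E4_mem_F.mp hd
      exact E4_dom ha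
    · intro d hd
      obtain ⟨a, haT, ha⟩ := E4_mem_F.mp hd
      exact E4_mem_F.mpr ⟨a, haT, E4_flip he ha⟩
    · exact (E4_Tr hA3a hA3c hV he hne hG hs hi T).mp (by convert h1)
    · rw [← E4_compl hG]
      exact (E4_Tr hA3a hA3c hV he hne hG hs hi Tᶜ).mp (by convert h2)
  · intro T' hT'
    obtain ⟨hsub, hinv, h1, h2⟩ := E4_mf.mp hT'
    rw [mem_powerset] at hsub
    have hF : E4_F G v e ((univ : Finset (G.induce ({v}ᶜ : Set V)).edgeSet).filter
      fun a => ∃ d ∈ T', E4_P G v e d a) = T' := by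
      ext d
      rw [E4_mem_F]
      constructor
      · rintro ⟨a, ha, hd⟩
        obtain ⟨_, d', hd', ha'⟩ := mem_filter.mp ha
        rcases E4_two he hi ha' hd with rfl | rfl
        · exact hd'
        · exact hinv _ hd'
      · intro hd
        obtain ⟨a, ha⟩ := E4_ex hG (hsub hd)
        exact ⟨a, mem_filter.mpr ⟨mem_univ _, d, hd, ha⟩, ha⟩
    refine E4_mf.mpr ⟨mem_univ _, ?_, ?_⟩
    · have := (E4_Tr hA3a hA3c hV he hne hG hs hi
        ((univ : Finset (G.induce ({v}ᶜ : Set V)).edgeSet).filter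
          fun a => ∃ d ∈ T', E4_P G v e d a)).mpr (by rw [hF]; exact h1)
      convert this
    · have := (E4_Tr hA3a hA3c hV he hne hG hs hi
        ((univ : Finset (G.induce ({v}ᶜ : Set V)).edgeSet).filter
          fun a => ∃ d ∈ T', E4_P G v e d a)ᶜ).mpr (by rw [E4_compl hG, hF]; exact h2)
      convert this
  · intro T _
    ext a
    rw [mem_filter]
    constructor
    · rintro ⟨_, d, hd, ha⟩
      obtain ⟨b, hb, hb'⟩ := E4_mem_F.mp hd
      rwa [E4_uniq ha hb']
    · intro haT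
      obtain ⟨d, hd⟩ := E4_surj hs a
      exact ⟨mem_univ _, d, E4_mem_F.mpr ⟨a, haT, hd⟩, hd⟩
  · intro T' hT'
    obtain ⟨hsub, hinv, h1, h2⟩ := E4_mf.mp hT'
    rw [mem_powerset] at hsub
    ext d
    rw [E4_mem_F]
    constructor
    · rintro ⟨a, ha, hd⟩
      obtain ⟨_, d', hd', ha'⟩ := mem_filter.mp ha
      rcases E4_two he hi ha' hd with rfl | rfl
      · exact hd'
      · exact hinv _ hd'
    · intro hd
      obtain ⟨a, ha⟩ := E4_ex hG (hsub hd)
      exact ⟨a, mem_filter.mpr ⟨mem_univ _, d, hd, ha⟩, ha⟩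

end CT
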